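import Pool.Agent.Helper85.SEP.Real
import Pool.Agent.Helper31.EC.SatG

/-!
# Copies given an information and a finite family of functions; Vandermonde matrices over `QS`
-/

set_option autoImplicit false

namespace Pool.Agent.Helper85.SEP

open Finset Filter Topology Pool.Agent.Helper69.RK Pool.Agent.Helper31.EC Pool.Agent.Helper40.EL

noncomputable section

open Sp

variable {S : Sp}

/-- the classes of an information -/
def qm (A : S.Inf) : ∀ k, (S.F k).Ω → Quotient (A.1 k) := fun k ω => Quotient.mk (A.1 k) ω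

theorem qm_ker (A : S.Inf) : (fun k => Setoid.ker (qm A k)) = A.1 := by
  funext k
  ext ω ω'
  exact Quotient.eq

theorem qm_bdd (A : S.Inf) : Sp.Bdd (qm A) := by
  unfold Sp.Bdd
  rw [qm_ker]
  exact A.2

theorem qm_io (A : S.Inf) : Sp.io (qm A) = cl A := by
  rw [io_eq (qm_bdd A)]
  congr 1
  exact Subtype.ext (qm_ker A)

/-- `d + 1` conditionally independent copies of `S` given the information `A`; the informations `B l`
and the functions `f l` (known from `A`) are common to all copies -/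
structure QC (S : Sp) (A : S.L) {κ ι : Type*} (B : κ → S.L) (f : ι → QS S) (d : ℕ) where
  W : Sp
  p : Fin (d + 1) → Pj W S
  com : ∀ i j l, (p i).qs (f l) = (p j).qs (f l)
  comA : ∀ i j, (p i).map A = (p j).map A
  comB : ∀ i j l, (p i).map (B l) = (p j).map (B l)
  ind : ∀ X : Fin (d + 1) → S.L, h (Finset.univ.sup fun i => (p i).map (X i)) ((p 0).map A) =
    ∑ i, h (X i) A

/-- one literal information refining finitely many known ones -/
theorem exists_ref (A : S.Inf) {κ : Type*} (s : Finset κ) (B : κ → S.Inf) (hB : ∀ l, cl (B l) ≤ cl A) :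
    ∃ R : S.Inf, cl R = cl A ∧ (∀ k, R.1 k ≤ A.1 k) ∧ ∀ l ∈ s, ∀ k, R.1 k ≤ (B l).1 k := by
  classical
  induction s using Finset.induction_on with
  | empty => exact ⟨A, rfl, fun _ => le_rfl, fun l hl => absurd hl (Finset.notMem_empty l)⟩
  | insert a s ha ih =>
    obtain ⟨R, h1, h2, h3⟩ := ih
    refine ⟨Inf.sup R (B a), ?_, fun k => inf_le_left.trans (h2 k), fun l hl k => ?_⟩
    · rw [cl_sup, h1]
      exact sup_eq_left.mpr (hB a)
    · rcases Finset.mem_insert.mp hl with rfl | hl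
      · exact inf_le_right
      · exact inf_le_left.trans (h3 l hl k)

theorem QC.exists (A : S.L) {κ ι : Type*} [Fintype κ] [Fintype ι] (B : κ → S.L) (f : ι → QS S)
    (hB : ∀ l, B l ≤ A) (hf : ∀ l, QS.dg (f l) 1 ≤ A) (d : ℕ) : Nonempty (QC S A B f d) := by
  classical
  induction A using cl_ind with | _ A
  have hB' : ∀ l, ∃ B' : S.Inf, cl B' = B l := fun l => by
    induction B l using cl_ind with | _ B' => exact ⟨B', rfl⟩
  choose B' hB' using hB'
  obtain ⟨R, hR1, hR2, hR3⟩ := exists_ref A Finset.univ B' (fun l => by rw [hB']; exact hB l)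
  set e := Fintype.equivFin ι with he
  set g : Fin (Fintype.card ι) → TR S := fun i => QS.rep (f (e.symm i)) with hg
  have hgf : ∀ i, QS.mk (g i) = f (e.symm i) := fun i => QS.mk_rep (f (e.symm i))
  set V2 := (TR.vec g).cellv 1 with hV2
  have hVb1 : Sp.Bdd (qm R) := qm_bdd R
  have hVb2 : Sp.Bdd V2 := (TR.vec g).bdd 1
  have hio1 : Sp.io (qm R) = cl A := by rw [qm_io, hR1]
  have hio2 : Sp.io V2 ≤ cl A := by
    show (TR.vec g).dg 1 ≤ _
    rw [TR.vec_dg_eq]
    apply Finset.sup_le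
    intro i _
    rw [← QS.dg_mk (g i) le_rfl, hgf i]
    exact hf _
  have hio : Sp.io (fun k ω => (qm R k ω, V2 k ω)) = cl A := by
    rw [io_pair hVb1 hVb2, hio1]
    exact sup_eq_left.mpr hio2
  obtain ⟨C⟩ := Cps.exists (fun k ω => (qm R k ω, V2 k ω)) (hVb1.pair hVb2) d
  refine ⟨⟨C.W, C.p, fun i j l => ?_, fun i j => ?_, fun i j l => ?_, fun X => ?_⟩⟩
  · have h0 : f l = QS.mk (g (e l)) := by rw [hgf, Equiv.symm_apply_apply]
    rw [h0, Pj.qs_mk, Pj.qs_mk, QS.mk_eq]
    refine ⟨fun _ _ => True, fun _ => 1, Sp.Typ_true, Sp.Sub_const _ zero_le_one,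
      Eventually.of_forall fun k w hw _ => ?_⟩
    have h1 := congrArg Prod.snd (C.agree k w hw i j)
    have h2 := (TR.vec g).cellv_close 1 k ((C.p i).π k w) ((C.p j).π k w) h1 (e l)
    have h3 : C.W.dl 1 k = S.dl 1 k := by
      unfold Sp.dl
      rw [(C.p 0).hn k]
    rw [one_mul, h3]
    exact h2
  · rw [← hio]
    exact C.common i j
  · rw [← hB' l, ← qm_io, Pj.map_io, Pj.map_io]
    have h1 : ∀ i, Sp.Bdd (S := C.W) (fun k ω => qm (B' l) k ((C.p i).π k ω)) := fun i =>
      ((C.p i).bdd_iff _).mpr (qm_bdd (B' l))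
    have h2 : ∀ i j k w, (C.W.F k).μ w ≠ 0 → qm (B' l) k ((C.p i).π k w) = qm (B' l) k ((C.p j).π k w) := by
      intro i j k w hw
      have h3 := congrArg Prod.fst (C.agree k w hw i j)
      exact Quotient.sound (hR3 l (Finset.mem_univ l) k (Quotient.exact h3))
    apply le_antisymm
    · exact io_le_of_fun (h1 j) (Eventually.of_forall fun k ω ω' a b _ h => by
        rw [h2 i j k ω a, h2 i j k ω' b, h])
    · exact io_le_of_fun (h1 i) (Eventually.of_forall fun k ω ω' a b _ h => by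
        rw [h2 j i k ω a, h2 j i k ω' b, h])
  · rw [← hio]
    exact C.indep X

namespace QC

variable {A : S.L} {κ ι : Type*} {B : κ → S.L} {f : ι → QS S} {d : ℕ} (C : QC S A B f d)

/-- entropy of one copy given the common information -/
theorem h_one (i : Fin (d + 1)) (x : S.L) :
    h ((C.p i).map x) ((C.p 0).map A) = h x A := by
  rw [C.comA 0 i, Pj.h_map]

end QC

/-- inverse of a Vandermonde matrix of invertible differences -/
theorem vand_inv {k : ℕ} (s : Fin (k + 1) → QS S)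
    (hs : ∀ i j, i < j → ∃ u : QS S, u * (s j - s i) = 1 ∧ QS.dg u 1 ≤ QS.vd s 1) :
    ∃ VI : Matrix (Fin (k + 1)) (Fin (k + 1)) (QS S), VI * Matrix.vandermonde s = 1 ∧
      Matrix.vandermonde s * VI = 1 ∧ ∀ i j, VI i j ∈ QS.Kn S 1 le_rfl (QS.vd s 1) := by
  classical
  set R := QS.Kn S 1 le_rfl (QS.vd s 1) with hR
  have hs' : ∀ i j, ∃ u : QS S, (i < j → u * (s j - s i) = 1) ∧ u ∈ R := by
    intro i j
    by_cases h : i < j
    · obtain ⟨u, h1, h2⟩ := hs i j h
      exact ⟨u, fun _ => h1, h2⟩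
    · exact ⟨0, fun h' => absurd h' h, R.zero_mem⟩
  choose u hu hu' using hs'
  set U : QS S := ∏ i, ∏ j ∈ Finset.Ioi i, u i j with hU
  have hUR : U ∈ R := R.prod_mem fun i _ => R.prod_mem fun j _ => hu' i j
  have hdet : U * (Matrix.vandermonde s).det = 1 := by
    rw [Matrix.det_vandermonde, hU, ← Finset.prod_mul_distrib]
    refine Finset.prod_eq_one fun i _ => ?_
    rw [← Finset.prod_mul_distrib]
    exact Finset.prod_eq_one fun j hj => hu i j (Finset.mem_Ioi.mp hj)
  have hV : ∀ i j, Matrix.vandermonde s i j ∈ R := by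
    intro i j
    rw [Matrix.vandermonde_apply]
    exact R.pow_mem (QS.dg_le_vd s 1 i) _
  refine ⟨U • (Matrix.vandermonde s).adjugate, ?_, ?_, fun i j => ?_⟩
  · rw [Matrix.smul_mul, Matrix.adjugate_mul, smul_smul, hdet, one_smul]
  · rw [Matrix.mul_smul, Matrix.mul_adjugate, smul_smul, hdet, one_smul]
  · rw [Matrix.smul_apply, smul_eq_mul]
    exact R.mul_mem hUR (adj_mem (R' := R) (Matrix.vandermonde s) hV i j)

namespace QC

variable {A : S.L} {κ ι : Type*} {B : κ → S.L} {f : ι → QS S} {d : ℕ} (C : QC S A B f d)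

/-- one copy keeps its entropy given the other copies -/
theorem h_rest (X : Fin (d + 1) → S.L) (j : Fin (d + 1)) :
    h (X j) A ≤ h ((C.p j).map (X j))
      (((Finset.univ.erase j).sup fun l => (C.p l).map (X l)) ⊔ (C.p 0).map A) := by
  classical
  have e1 := C.ind X
  rw [← Finset.insert_erase (Finset.mem_univ j), Finset.sup_insert,
    Finset.sum_insert (Finset.notMem_erase _ _), sup_comm, h_chain] at e1
  have e2 := h_finsup_le (Finset.univ.erase j) (fun l => (C.p l).map (X l)) ((C.p 0).map A)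
  have e3 : ∑ l ∈ Finset.univ.erase j, h ((C.p l).map (X l)) ((C.p 0).map A) =
      ∑ l ∈ Finset.univ.erase j, h (X l) A :=
    Finset.sum_congr rfl fun l _ => C.h_one l (X l)
  linarith

/-- differences of copies of a real variable are invertible -/
theorem inv_diff (x : QS S) (hx : 1 ≤ h (QS.dg x 1) A) (i j : Fin (d + 1)) (hij : i ≠ j) :
    ∃ u : QS C.W, u * ((C.p j).qs x - (C.p i).qs x) = 1 ∧
      QS.dg u 1 ≤ QS.vd (fun i => (C.p i).qs x) 1 := by
  classical
  have e1 := C.h_rest (fun _ => QS.dg x 1) j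
  have e2 : QS.dg ((C.p i).qs x) 1 ≤ ((Finset.univ.erase j).sup fun l => (C.p l).map (QS.dg x 1)) ⊔
      (C.p 0).map A := by
    rw [Pj.qs_dg]
    exact (Finset.le_sup (f := fun l => (C.p l).map (QS.dg x 1))
      (Finset.mem_erase.mpr ⟨hij, Finset.mem_univ i⟩)).trans le_sup_left
  have e3 : 1 ≤ h (QS.dg ((C.p j).qs x) 1) (((Finset.univ.erase j).sup fun l => (C.p l).map (QS.dg x 1)) ⊔
      (C.p 0).map A) := by
    rw [Pj.qs_dg]
    exact hx.trans e1
  obtain ⟨u, hu1, hu2⟩ := real_inv _ _ _ e3 e2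
  refine ⟨u, hu1, (hu2 1 le_rfl).trans ((QS.dg_sub_le _ _ le_rfl).trans (sup_le ?_ ?_))⟩
  · exact QS.dg_le_vd (fun i => (C.p i).qs x) 1 j
  · exact QS.dg_le_vd (fun i => (C.p i).qs x) 1 i

theorem vand (x : QS S) (hx : 1 ≤ h (QS.dg x 1) A) :
    ∃ VI : Matrix (Fin (d + 1)) (Fin (d + 1)) (QS C.W),
      VI * Matrix.vandermonde (fun i => (C.p i).qs x) = 1 ∧
      Matrix.vandermonde (fun i => (C.p i).qs x) * VI = 1 ∧
      ∀ i j, QS.dg (VI i j) 1 ≤ QS.vd (fun i => (C.p i).qs x) 1 :=
  vand_inv (fun i => (C.p i).qs x) fun i j hij => C.inv_diff x hx i j hij.ne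

/-- joint entropy of the copies of one function -/
theorem h_vd (x : QS S) :
    h (QS.vd (fun i => (C.p i).qs x) 1) ((C.p 0).map A) = (d + 1) * h (QS.dg x 1) A := by
  have e1 := C.ind (fun _ => QS.dg x 1)
  have e2 : QS.vd (fun i => (C.p i).qs x) 1 = Finset.univ.sup fun i => (C.p i).map (QS.dg x 1) := by
    unfold QS.vd
    simp only [Pj.qs_dg]
  rw [e2, e1, Finset.sum_const, Finset.card_univ, Fintype.card_fin, nsmul_eq_mul]
  push_cast
  ring

end QC

/-- the entropy of finitely many scalars -/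
theorem H_vd_le {ι : Type*} [Fintype ι] (f : ι → QS S) : H (QS.vd f 1) ≤ Fintype.card ι := by
  rw [← h_bot]
  refine (h_finsup_le Finset.univ (fun i => QS.dg (f i) 1) ⊥).trans ?_
  refine (Finset.sum_le_card_nsmul _ _ 1 fun i _ => ?_).trans ?_
  · rw [h_bot]
    exact QS.H_dg_le _ zero_le_one
  · rw [Finset.card_univ, nsmul_eq_mul, mul_one]

end

end Pool.Agent.Helper85.SEP
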