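import Pool.Agent.Helper31.EC.Cpy
import Pool.Agent.Helper40.EL.D0

/-!
# Real variables in the exact entropy calculus

A tame function whose digits are full given `A` stays away from every function of `A`:
`real_nd`. Consequences: differences of independent real variables are invertible in `QS`.
-/

set_option autoImplicit false

namespace Pool.Agent.Helper85.SEP

open Finset Filter Topology Pool.Agent.Helper69.RK Pool.Agent.Helper31.EC Pool.Agent.Helper40.EL

noncomputable section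

open Sp

variable {S : Sp}

/-- full digits at level `1` give full digits at every level -/
theorem real_lev (f : TR S) (A : S.L) (hf : 1 ≤ h (TR.dg f 1) A) {r : ℝ} (h1 : r ≤ 1) :
    r ≤ h (TR.dg f r) A := by
  have e1 : TR.dg f 1 = TR.dg f r ⊔ TR.dg f 1 := (sup_eq_right.mpr (TR.dg_mono f h1)).symm
  have e2 : h (TR.dg f r ⊔ TR.dg f 1) A = h (TR.dg f r) A + h (TR.dg f 1) (TR.dg f r ⊔ A) :=
    h_chain _ _ _
  rw [← e1] at e2
  have e3 : h (TR.dg f 1) (TR.dg f r ⊔ A) ≤ h (TR.dg f 1) (TR.dg f r) := h_anti le_sup_left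
  have e4 := (TR.vec fun _ : Fin 1 => f).h_dg_dg h1
  simp only [Nat.cast_one, one_mul] at e4
  have e5 : h (TR.dg f 1) (TR.dg f r) ≤ 1 - r := e4
  linarith

/-- a real variable is far from every function of the condition -/
theorem real_far (f g : TR S) (A : S.L) (hf : 1 ≤ h (TR.dg f 1) A) (hg : TR.dg g 1 ≤ A) (δ : ℝ)
    (h0 : 0 < δ) (h1 : δ ≤ 1) :
    Typ (fun k ω => S.dl δ k < |TR.ev f k ω - TR.ev g k ω|) := by
  set E : ∀ k, (S.F k).Ω → Prop := fun k ω => S.dl δ k < |TR.ev f k ω - TR.ev g k ω| with hE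
  have hlev := real_lev f A hf h1
  have hgA : TR.dg g δ ≤ A := (TR.dg_mono g h1).trans hg
  induction A using cl_ind with | _ A
  set y : S.VV 1 := TR.vec fun _ : Fin 1 => f with hy
  set z : S.VV 1 := TR.vec fun _ : Fin 1 => g with hz
  obtain ⟨C, hCs, hC⟩ := y.bd
  have hCs' : S.Sub (fun k => 4 * (C k + 1)) :=
    (S.Sub_const (show (0 : ℝ) ≤ 4 by norm_num)).mul (hCs.add (S.Sub_const zero_le_one))
  set B : S.Inf := Inf.sup A (z.bdd δ).toInf with hB
  have hclB : cl B = cl A := by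
    rw [hB, cl_sup]
    apply sup_eq_left.mpr
    have : io (z.cellv δ) ≤ cl A := hgA
    rwa [io_eq (z.bdd δ)] at this
  have hr : h (TR.dg f δ) (cl A) = ul (S.rt (fun k => Setoid.ker (y.cellv δ k)) B.1) := by
    rw [← hclB]
    show h (y.dg δ) (cl B) = _
    unfold VV.dg
    rw [io_eq (y.bdd δ), h_cl]
    rfl
  -- upper bound
  have hup : ∀ᶠ k in UF, S.rt (fun k => Setoid.ker (y.cellv δ k)) B.1 k ≤
      Real.logb 2 5 / (S.F k).n + Real.logb 2 (4 * (C k + 1) + 2) / (S.F k).n + 1 / (S.F k).n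
        + δ * S.pr E k := by
    filter_upwards [hC, hCs.1] with k hk hC0
    have hn := (S.F k).pos
    have a1 := rt_cell_le y δ (C k + 1) 3 (by norm_num) B.1 E k
      (fun ω a i => (hk ω a i).trans (by linarith)) (by linarith)
      (fun ω ω' a b e e' gg i => by
        have g1 : z.cellv δ k ω = z.cellv δ k ω' := gg.1.2
        have g2 := z.cellv_close δ k ω ω' g1 i
        have e1 : |TR.ev f k ω - TR.ev g k ω| ≤ S.dl δ k := not_lt.mp e
        have e2 : |TR.ev f k ω' - TR.ev g k ω'| ≤ S.dl δ k := not_lt.mp e'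
        have g3 : |TR.ev g k ω - TR.ev g k ω'| ≤ S.dl δ k := g2
        show |TR.ev f k ω - TR.ev f k ω'| ≤ 3 * S.dl δ k
        rw [abs_le] at e1 e2 g3 ⊢
        constructor <;> linarith [e1.1, e1.2, e2.1, e2.2, g3.1, g3.2])
    have hp1 := pr_le_one E k
    have hp0 := pr_nonneg E k
    have hl : 0 ≤ Real.logb 2 (4 * (C k + 1)) := Real.logb_nonneg (by norm_num) (by linarith)
    have hl2 : Real.logb 2 (4 * (C k + 1)) ≤ Real.logb 2 (4 * (C k + 1) + 2) :=
      Real.logb_le_logb_of_le (by norm_num) (by linarith) (by linarith)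
    have hm : mass (res (S.F k).μ (E k)) = S.pr E k := rfl
    rw [hm, max_eq_left h0.le] at a1
    simp only [Nat.cast_one, one_mul] at a1
    have a2 : (Real.logb 2 (4 * (C k + 1)) + δ * (S.F k).n) / (S.F k).n * S.pr E k ≤
        Real.logb 2 (4 * (C k + 1) + 2) / (S.F k).n + δ * S.pr E k := by
      rw [add_div, mul_div_assoc δ, div_self hn.ne', mul_one, add_mul]
      have b1 : Real.logb 2 (4 * (C k + 1)) / (S.F k).n * S.pr E k ≤
          Real.logb 2 (4 * (C k + 1)) / (S.F k).n * 1 :=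
        mul_le_mul_of_nonneg_left hp1 (div_nonneg hl hn.le)
      have b2 := div_le_div_of_nonneg_right hl2 hn.le
      linarith
    have a3 : (3 : ℝ) + 2 = 5 := by norm_num
    rw [a3] at a1
    linarith
  have t1 : Tendsto (fun k => Real.logb 2 5 / (S.F k).n + Real.logb 2 (4 * (C k + 1) + 2) / (S.F k).n
      + 1 / (S.F k).n + δ * S.pr E k) UF (𝓝 (0 + 0 + 0 + δ * ul (S.pr E))) :=
    (((S.div_n_tendsto _).add hCs'.2).add (S.div_n_tendsto 1)).add
      ((ul_tendsto (UB_pr E)).const_mul δ)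
  have h2 : h (TR.dg f δ) (cl A) ≤ δ * ul (S.pr E) := by
    rw [hr]
    have u1 : UB (S.rt (fun k => Setoid.ker (y.cellv δ k)) B.1) := UB_rt (y.bdd δ).toInf B.1
    have u2 := ul_mono u1 (UB_of_tendsto t1) hup
    rw [ul_eq t1] at u2
    linarith
  have h3 : 1 ≤ ul (S.pr E) := by
    have : δ * 1 ≤ δ * ul (S.pr E) := by linarith
    exact le_of_mul_le_mul_left this h0
  have h4 : ul (S.pr E) ≤ 1 := ul_le_const (UB_pr E) (Eventually.of_forall fun k => pr_le_one E k)
  rw [Typ_iff]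
  have h5 := ul_tendsto (UB_pr E)
  rwa [le_antisymm h4 h3] at h5

/-- a real variable minus a function of the condition is nondegenerate -/
theorem real_nd (f g : TR S) (A : S.L) (hf : 1 ≤ h (TR.dg f 1) A) (hg : TR.dg g 1 ≤ A) :
    QS.Nd (f - g) := by
  set δ : ℕ → ℝ := fun i => 1 / ((i : ℝ) + 1) with hδ
  have hδ0 : ∀ i, 0 < δ i := fun i => by positivity
  have hδ1 : ∀ i, δ i ≤ 1 := fun i => by
    rw [hδ]
    simp only
    rw [div_le_one (by positivity)]
    have : (0 : ℝ) ≤ i := Nat.cast_nonneg i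
    linarith
  obtain ⟨j, hj1, hj2⟩ := dia (fun i k => mass (res (S.F k).μ (fun ω =>
      ¬ S.dl (δ i) k < |TR.ev f k ω - TR.ev g k ω|)) ≤ δ i) (fun i => by
    have h1 := real_far f g A hf hg (δ i) (hδ0 i) (hδ1 i)
    unfold Typ at h1
    filter_upwards [h1.eventually (gt_mem_nhds (hδ0 i))] with k hk using hk.le)
  have hδt : Tendsto (fun k => δ (j k)) UF (𝓝 0) :=
    (tendsto_one_div_add_atTop_nhds_zero_nat (𝕜 := ℝ)).comp hj1
  refine ⟨fun k => 2 ^ (δ (j k) * (S.F k).n), ⟨?_, ?_⟩, ?_⟩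
  · exact Eventually.of_forall fun k => by positivity
  · have t1 : Tendsto (fun k => 2 / (S.F k).n + δ (j k)) UF (𝓝 (0 + 0)) :=
      (S.div_n_tendsto 2).add hδt
    rw [add_zero] at t1
    refine tendsto_of_tendsto_of_tendsto_of_le_of_le tendsto_const_nhds t1 (fun k => ?_) (fun k => ?_)
    · refine div_nonneg (Real.logb_nonneg (by norm_num) ?_) (S.F k).pos.le
      have : (0 : ℝ) < 2 ^ (δ (j k) * (S.F k).n) := by positivity
      linarith
    · have hn := (S.F k).pos
      have a1 : (1 : ℝ) ≤ 2 ^ (δ (j k) * (S.F k).n) :=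
        Real.one_le_rpow (by norm_num) (mul_nonneg (hδ0 _).le hn.le)
      have a2 : (2 : ℝ) ^ (δ (j k) * (S.F k).n) + 2 ≤ 2 ^ (2 + δ (j k) * (S.F k).n) := by
        rw [Real.rpow_add (by norm_num)]
        norm_num
        linarith
      have a3 : Real.logb 2 ((2 : ℝ) ^ (δ (j k) * (S.F k).n) + 2) ≤ 2 + δ (j k) * (S.F k).n := by
        refine (Real.logb_le_logb_of_le (by norm_num) (by positivity) a2).trans (le_of_eq ?_)
        exact Real.logb_rpow (by norm_num) (by norm_num)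
      rw [div_le_iff₀ hn]
      refine a3.trans (le_of_eq ?_)
      field_simp
  · unfold Typ
    refine tendsto_of_tendsto_of_tendsto_of_le_of_le' tendsto_const_nhds hδt
      (Eventually.of_forall fun k => mass_res_nonneg k _) ?_
    filter_upwards [hj2] with k hk
    refine le_trans ?_ (hk (j k) le_rfl)
    refine (S.F k).pb_mono (fun ω hω a => ?_)
    intro hlt
    apply a
    rw [TR.ev_sub]
    have hd := S.dl_pos (δ (j k)) k
    have e1 : (2 : ℝ) ^ (δ (j k) * (S.F k).n) * S.dl (δ (j k)) k = 1 := by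
      unfold dl
      rw [← Real.rpow_add (by norm_num), add_neg_cancel, Real.rpow_zero]
    have e2 : (0 : ℝ) < 2 ^ (δ (j k) * (S.F k).n) := by positivity
    calc (1 : ℝ) = (2 : ℝ) ^ (δ (j k) * (S.F k).n) * S.dl (δ (j k)) k := e1.symm
      _ ≤ (2 : ℝ) ^ (δ (j k) * (S.F k).n) * |TR.ev f k ω - TR.ev g k ω| :=
        mul_le_mul_of_nonneg_left hlt.le e2.le

/-- the same in `QS`: the difference is invertible and its inverse is known -/
theorem real_inv (f g : QS S) (A : S.L) (hf : 1 ≤ h (QS.dg f 1) A) (hg : QS.dg g 1 ≤ A) :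
    ∃ u : QS S, u * (f - g) = 1 ∧ ∀ r ≤ 1, QS.dg u r ≤ QS.dg (f - g) r := by
  obtain ⟨f, rfl⟩ := QS.mk_surj f
  obtain ⟨g, rfl⟩ := QS.mk_surj g
  rw [QS.dg_mk _ le_rfl] at hf hg
  have h1 := (real_nd f g A hf hg).inv
  rw [map_sub] at h1
  exact h1

/-- probabilities of pulled back events -/
theorem mass_pull {T : Sp} (p : Pj T S) (E : ∀ k, (S.F k).Ω → Prop) (k : ℕ) :
    mass (res (T.F k).μ (fun ω => E k (p.π k ω))) = mass (res (S.F k).μ (E k)) := by
  have h2 : push (p.π k) (res (T.F k).μ fun ω => E k (p.π k ω)) = res (S.F k).μ (E k) := by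
    funext ω
    rw [push_ind]
    by_cases h : E k ω
    · rw [res_pos (S.F k).μ (E k) ω h, ← p.law k, push_ind]
      apply Finset.sum_congr rfl
      intro ω' _
      by_cases h2 : p.π k ω' = ω
      · rw [res_pos (T.F k).μ (fun ω => E k (p.π k ω)) ω' (by rw [h2]; exact h)]
      · rw [e1_ind_neg h2, zero_mul, zero_mul]
    · rw [res_neg (S.F k).μ (E k) ω h]
      apply Finset.sum_eq_zero
      intro ω' _
      by_cases h2 : p.π k ω' = ω
      · rw [res_neg (T.F k).μ (fun ω => E k (p.π k ω)) ω' (by rw [h2]; exact h), mul_zero]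
      · rw [e1_ind_neg h2, zero_mul]
  rw [← h2]
  have h3 := (Pool.Agent.Helper70.RK.st_E5.1 (S.F k).Ω (T.F k).Ω Unit Unit
    (res (T.F k).μ fun ω => E k (p.π k ω)) (p.π k) (fun _ => ()) (fun _ => ())
    ((T.F k).res_nonneg fun ω => E k (p.π k ω))).2.1
  exact h3.symm

theorem typ_pull {T : Sp} (p : Pj T S) (E : ∀ k, (S.F k).Ω → Prop) :
    Typ (S := T) (fun k ω => E k (p.π k ω)) ↔ Typ (S := S) E := by
  unfold Typ
  have h1 : ∀ k, mass (res (T.F k).μ (fun ω => ¬ E k (p.π k ω))) =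
      mass (res (S.F k).μ (fun ω => ¬ E k ω)) := fun k => mass_pull p (fun k ω => ¬ E k ω) k
  simp only [h1]

/-- the pullback is injective -/
theorem qs_inj {T : Sp} (p : Pj T S) (f : QS S) (hf : p.qs f = 0) : f = 0 := by
  obtain ⟨f, rfl⟩ := QS.mk_surj f
  rw [p.qs_mk, ← map_zero QS.mk, QS.mk_eq] at hf
  obtain ⟨E, K, hE, hK, hh⟩ := hf
  rw [← map_zero QS.mk, QS.mk_eq]
  have hKS : S.Sub K := by
    refine ⟨hK.1, ?_⟩
    refine hK.2.congr fun k => ?_
    rw [p.hn k]
  refine ⟨fun k ω => |TR.ev f k ω - TR.ev 0 k ω| ≤ K k * S.dl 1 k, K, ?_, hKS,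
    Eventually.of_forall fun k ω _ h => h⟩
  have h1 : Typ (S := T) (fun k ω => |TR.ev f k (p.π k ω) - TR.ev 0 k (p.π k ω)| ≤ K k * S.dl 1 k) := by
    apply hE.mono
    filter_upwards [hh] with k hk ω a b
    have h2 := hk ω a b
    have h3 : T.dl 1 k = S.dl 1 k := by
      unfold dl
      rw [p.hn k]
    rw [h3] at h2
    exact h2
  exact (typ_pull p _).mp h1

end

end Pool.Agent.Helper85.SEP
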