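import Pool.Agent.Helper85.SEP.Sep2

/-!
# Lemma SEP: separately polynomial functions are polynomials

`sep`: if `s 0, …, s (D-1)` are independent real variables given the information `B` and every `g b`
is, for every `i`, a polynomial in `s i` of degree `≤ k` with coefficients known from the other
variables and `B`, then on an extension of the space `g b` is a polynomial in all variables with
coefficients known from `B`.
-/

set_option autoImplicit false

namespace Pool.Agent.Helper85.SEP

open Finset Filter Topology Pool.Agent.Helper69.RK Pool.Agent.Helper31.EC Pool.Agent.Helper40.EL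

noncomputable section

open Sp

/-- the digits of all variables but one -/
def oth {S : Sp} {D : ℕ} (s : Fin D → QS S) (i : Fin D) : S.L :=
  (Finset.univ.erase i).sup fun j => QS.dg (s j) 1

theorem dg_le_oth {S : Sp} {D : ℕ} (s : Fin D → QS S) {i j : Fin D} (hij : j ≠ i) :
    QS.dg (s j) 1 ≤ oth s i :=
  Finset.le_sup (f := fun j => QS.dg (s j) 1) (Finset.mem_erase.mpr ⟨hij, Finset.mem_univ j⟩)

theorem oth_le_vd {S : Sp} {D : ℕ} (s : Fin D → QS S) (i : Fin D) : oth s i ≤ QS.vd s 1 :=
  Finset.sup_le fun j _ => QS.dg_le_vd s 1 j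

theorem Pj.map_oth {T S : Sp} (p : Pj T S) {D : ℕ} (s : Fin D → QS S) (i : Fin D) :
    p.map (oth s i) = oth (fun j => p.qs (s j)) i := by
  unfold oth
  rw [Pj.map_finsup]
  simp only [Pj.qs_dg]

theorem vd_succ {S : Sp} {D : ℕ} (s : Fin (D + 1) → QS S) :
    QS.vd s 1 = QS.dg (s 0) 1 ⊔ QS.vd (fun i : Fin D => s i.succ) 1 := by
  apply le_antisymm
  · rw [QS.vd_le]
    intro i
    refine Fin.cases ?_ (fun j => ?_) i
    · exact le_sup_left
    · exact (QS.dg_le_vd (fun i : Fin D => s i.succ) 1 j).trans le_sup_right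
  · apply sup_le (QS.dg_le_vd s 1 0)
    rw [QS.vd_le]
    intro i
    exact QS.dg_le_vd s 1 i.succ

theorem oth_zero_le {S : Sp} {D : ℕ} (s : Fin (D + 1) → QS S) :
    oth s 0 ≤ QS.vd (fun i : Fin D => s i.succ) 1 := by
  apply Finset.sup_le
  intro j hj
  obtain ⟨i, rfl⟩ := Fin.exists_succ_eq.mpr (Finset.ne_of_mem_erase hj)
  exact QS.dg_le_vd (fun i : Fin D => s i.succ) 1 i

theorem oth_succ_le {S : Sp} {D : ℕ} (s : Fin (D + 1) → QS S) (i : Fin D) :
    oth s i.succ ≤ QS.dg (s 0) 1 ⊔ oth (fun i : Fin D => s i.succ) i := by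
  apply Finset.sup_le
  intro j hj
  have hj' := Finset.ne_of_mem_erase hj
  refine Fin.cases (fun _ => ?_) (fun l hl => ?_) j hj'
  · exact le_sup_left
  · have hl' : l ≠ i := fun h => hl (by rw [h])
    exact (dg_le_oth (fun i : Fin D => s i.succ) hl').trans le_sup_right

/-- one variable and the others -/
theorem vd_eq_oth {S : Sp} {D : ℕ} (s : Fin D → QS S) (i : Fin D) :
    QS.vd s 1 = oth s i ⊔ QS.dg (s i) 1 := by
  unfold QS.vd oth
  rw [← Finset.insert_erase (Finset.mem_univ i), Finset.sup_insert, sup_comm,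
    Finset.erase_insert (Finset.notMem_erase _ _)]

theorem h_oth_le {S : Sp} {D : ℕ} (s : Fin (D + 1) → QS S) (i : Fin (D + 1)) (B : S.L) :
    h (oth s i) B ≤ D := by
  refine (h_finsup_le (Finset.univ.erase i) (fun j => QS.dg (s j) 1) B).trans ?_
  refine (Finset.sum_le_card_nsmul _ _ 1 fun i _ => (h_le_H _ _).trans (QS.H_dg_le _ zero_le_one)).trans ?_
  rw [Finset.card_erase_of_mem (Finset.mem_univ i), Finset.card_univ, Fintype.card_fin, nsmul_eq_mul,
    mul_one, Nat.add_sub_cancel]

theorem sep (k : ℕ) : ∀ (D : ℕ) (S : Sp) (β : Type) [Fintype β] (B : S.L) (s : Fin D → QS S)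
    (_ : (D : ℝ) ≤ h (QS.vd s 1) B) (g : β → QS S) (_ : ∀ b, QS.dg (g b) 1 ≤ QS.vd s 1 ⊔ B)
    (G : Fin D → Fin (k + 1) → β → QS S) (_ : ∀ i b, g b = ∑ a, G i a b * s i ^ (a : ℕ))
    (_ : ∀ i a b, QS.dg (G i a b) 1 ≤ oth s i ⊔ B),
    ∃ (T : Sp) (p : Pj T S) (c : (Fin D → Fin (k + 1)) → β → QS T),
      (∀ α b, QS.dg (c α b) 1 ≤ p.map B) ∧
      ∀ b, p.qs (g b) = ∑ α, c α b * ∏ i, p.qs (s i) ^ (α i : ℕ) := by
  classical
  intro D
  induction D with
  | zero =>
    intro S β _ B s _ g hg0 G _ _
    refine ⟨S, Pj.id S, fun _ b => g b, fun _ b => ?_, fun b => ?_⟩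
    · rw [Pj.id_map]
      refine (hg0 b).trans (sup_le ?_ le_rfl)
      rw [QS.vd_le]
      intro i
      exact Fin.elim0 i
    · rw [Pj.id_qs]
      simp
  | succ D ih =>
    intro S β _ B s hs g hg0 G hg hG
    set s' : Fin D → QS S := fun i => s i.succ with hs'
    -- extensions
    have key : ∀ I : Finset (Fin D), ∃ (T : Sp) (p : Pj T S)
        (e : Fin D → Fin (k + 1) → Fin (k + 1) → β → QS T), ∀ i ∈ I,
        (∀ a c b, QS.dg (e i a c b) 1 ≤ p.map (oth s' i ⊔ B)) ∧
        ∀ c b, p.qs (G 0 c b) = ∑ a, e i a c b * p.qs (s' i) ^ (a : ℕ) := by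
      intro I
      induction I using Finset.induction_on with
      | empty => exact ⟨S, Pj.id S, fun _ _ _ _ => 0, fun i hi => absurd hi (Finset.notMem_empty i)⟩
      | insert i I hi ihI =>
        obtain ⟨T, p, e, he⟩ := ihI
        obtain ⟨D', rfl⟩ : ∃ D', D = D' + 1 := Nat.exists_eq_add_of_lt i.pos |>.imp fun x hx => by omega
        have hst : 2 ≤ h (QS.dg (p.qs (s' i)) 1 ⊔ QS.dg (p.qs (s 0)) 1) (p.map (oth s' i ⊔ B)) := by
          rw [Pj.qs_dg, Pj.qs_dg, ← Pj.map_sup, Pj.h_map]
          have a1 : QS.vd s 1 = oth s' i ⊔ (QS.dg (s' i) 1 ⊔ QS.dg (s 0) 1) := by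
            rw [vd_succ s, ← hs', vd_eq_oth s' i, sup_comm, sup_assoc]
          rw [a1, h_chain] at hs
          have a2 := h_oth_le s' i B
          push_cast at hs
          linarith
        obtain ⟨T', p', e', h1, h2, -⟩ := sep2 (p.map (oth s' i ⊔ B)) (p.qs (s' i)) (p.qs (s 0)) k hst
          (fun b => p.qs (g b)) (fun a b => p.qs (G i.succ a b)) (fun a b => p.qs (G 0 a b))
          (fun b => by
            rw [hg i.succ b, map_sum]
            exact Finset.sum_congr rfl fun a _ => by rw [map_mul, map_pow])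
          (fun a b => by
            rw [Pj.qs_dg, Pj.qs_dg, ← Pj.map_sup]
            apply p.map_mono
            refine (hG i.succ a b).trans (sup_le ((oth_succ_le s i).trans ?_) ?_)
            · exact sup_le le_sup_left (le_sup_left.trans le_sup_right)
            · exact le_sup_right.trans le_sup_right)
          (fun b => by
            rw [hg 0 b, map_sum]
            exact Finset.sum_congr rfl fun a _ => by rw [map_mul, map_pow])
          (fun a b => by
            rw [Pj.qs_dg, Pj.qs_dg, ← Pj.map_sup]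
            apply p.map_mono
            refine (hG 0 a b).trans (sup_le ((oth_zero_le s).trans ?_) ?_)
            · rw [← hs', vd_eq_oth s' i]
              exact sup_le (le_sup_left.trans le_sup_right) le_sup_left
            · exact le_sup_right.trans le_sup_right)
        refine ⟨T', p'.comp p, fun j a c b => if j = i then e' a c b else p'.qs (e j a c b),
          fun j hj => ⟨fun a c b => ?_, fun c b => ?_⟩⟩
        · rw [Pj.comp_map]
          by_cases hji : j = i
          · subst hji
            simp only [if_true]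
            exact h1 a c b
          · simp only [if_neg hji, Pj.qs_dg]
            exact p'.map_mono ((he j (Finset.mem_of_mem_insert_of_ne hj hji)).1 a c b)
        · rw [Pj.comp_qs, Pj.comp_qs]
          by_cases hji : j = i
          · subst hji
            simp only [if_true]
            exact h2 c b
          · simp only [if_neg hji]
            rw [(he j (Finset.mem_of_mem_insert_of_ne hj hji)).2 c b, map_sum]
            exact Finset.sum_congr rfl fun a _ => by rw [map_mul, map_pow]
    obtain ⟨T, p, e, he⟩ := key Finset.univ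
    obtain ⟨T', p', c', h1, h2⟩ := ih T (Fin (k + 1) × β) (p.map B) (fun i => p.qs (s' i))
      (by
        rw [Pj.qs_vd, Pj.h_map]
        rw [vd_succ s, ← hs', sup_comm, h_chain] at hs
        have a2 : h (QS.dg (s 0) 1) (QS.vd s' 1 ⊔ B) ≤ 1 :=
          (h_le_H _ _).trans (QS.H_dg_le _ zero_le_one)
        push_cast at hs
        linarith)
      (fun cb => p.qs (G 0 cb.1 cb.2))
      (fun cb => by
        rw [Pj.qs_dg, Pj.qs_vd, ← Pj.map_sup]
        apply p.map_mono
        exact (hG 0 cb.1 cb.2).trans (sup_le ((oth_zero_le s).trans le_sup_left) le_sup_right))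
      (fun i a cb => e i a cb.1 cb.2)
      (fun i cb => (he i (Finset.mem_univ i)).2 cb.1 cb.2)
      (fun i a cb => by
        rw [← Pj.map_oth p s' i, ← Pj.map_sup]
        exact (he i (Finset.mem_univ i)).1 a cb.1 cb.2)
    refine ⟨T', p'.comp p, fun α b => c' (fun i => α i.succ) (α 0, b), fun α b => ?_, fun b => ?_⟩
    · rw [Pj.comp_map]
      exact h1 _ _
    · have e1 : (p'.comp p).qs (g b) = ∑ c, p'.qs (p.qs (G 0 c b)) * p'.qs (p.qs (s 0)) ^ (c : ℕ) := by
        rw [Pj.comp_qs, hg 0 b, map_sum, map_sum]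
        exact Finset.sum_congr rfl fun a _ => by rw [map_mul, map_mul, map_pow, map_pow]
      rw [e1]
      have e2 : ∀ c, p'.qs (p.qs (G 0 c b)) = ∑ α, c' α (c, b) * ∏ i, p'.qs (p.qs (s' i)) ^ (α i : ℕ) :=
        fun c => h2 (c, b)
      simp only [e2]
      rw [← (Fin.consEquiv (fun _ : Fin (D + 1) => Fin (k + 1))).sum_comp, Fintype.sum_prod_type]
      apply Finset.sum_congr rfl
      intro c _
      rw [Finset.sum_mul]
      apply Finset.sum_congr rfl
      intro α _
      rw [Fin.prod_univ_succ]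
      simp only [Fin.consEquiv_apply, Fin.cons_zero, Fin.cons_succ, Pj.comp_qs]
      ring

end

end Pool.Agent.Helper85.SEP
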