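import Pool.Agent.Helper85.SEP.Cop

/-!
# Separately polynomial functions of two real variables

`sep2`: if `s, t` are independent real variables given the information `B`, and `g` is a polynomial
in `s` with coefficients known from `(t, B)` and a polynomial in `t` with coefficients known from
`(s, B)`, then on an extension of the space the coefficients are polynomials with coefficients known
from `B`.
-/

set_option autoImplicit false

namespace Pool.Agent.Helper85.SEP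

open Finset Filter Topology Pool.Agent.Helper69.RK Pool.Agent.Helper31.EC Pool.Agent.Helper40.EL

noncomputable section

open Sp

/-- entropies of two independent real variables -/
theorem two_real {S : Sp} (s t : QS S) (F : S.L) (hst : 2 ≤ h (QS.dg s 1 ⊔ QS.dg t 1) F) :
    1 ≤ h (QS.dg t 1) F ∧ 1 ≤ h (QS.dg s 1) (QS.dg t 1 ⊔ F) := by
  have e1 : h (QS.dg t 1 ⊔ QS.dg s 1) F = h (QS.dg t 1) F + h (QS.dg s 1) (QS.dg t 1 ⊔ F) := h_chain _ _ _
  rw [sup_comm] at hst
  have e2 : h (QS.dg t 1) F ≤ 1 := (h_le_H _ _).trans (QS.H_dg_le _ zero_le_one)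
  have e3 : h (QS.dg s 1) (QS.dg t 1 ⊔ F) ≤ 1 := (h_le_H _ _).trans (QS.H_dg_le _ zero_le_one)
  constructor <;> linarith

theorem sum_swap {R : Type*} [CommRing R] {n : Type*} [Fintype n] [DecidableEq n] (A B : Matrix n n R)
    (hAB : A * B = 1) (x : n → R) (i : n) : ∑ a, A i a * ∑ j, B a j * x j = x i := by
  have e1 : (A * B).mulVec x = x := by rw [hAB, Matrix.one_mulVec]
  rw [← Matrix.mulVec_mulVec] at e1
  exact congrFun e1 i

theorem sep2 {S : Sp} {β : Type*} [Fintype β] (B : S.L) (s t : QS S) (k : ℕ)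
    (hst : 2 ≤ h (QS.dg s 1 ⊔ QS.dg t 1) B)
    (g : β → QS S) (G1 G2 : Fin (k + 1) → β → QS S)
    (hg1 : ∀ b, g b = ∑ a, G1 a b * s ^ (a : ℕ))
    (h1 : ∀ a b, QS.dg (G1 a b) 1 ≤ QS.dg t 1 ⊔ B)
    (hg2 : ∀ b, g b = ∑ c, G2 c b * t ^ (c : ℕ))
    (h2 : ∀ a b, QS.dg (G2 a b) 1 ≤ QS.dg s 1 ⊔ B) :
    ∃ (T : Sp) (p : Pj T S) (e : Fin (k + 1) → Fin (k + 1) → β → QS T),
      (∀ a c b, QS.dg (e a c b) 1 ≤ p.map B) ∧
      (∀ c b, p.qs (G2 c b) = ∑ a, e a c b * (p.qs s) ^ (a : ℕ)) ∧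
      ∀ a b, p.qs (G1 a b) = ∑ c, e a c b * (p.qs t) ^ (c : ℕ) := by
  classical
  obtain ⟨ht, hs⟩ := two_real s t _ hst
  -- first copies: common `t, G1` and the base
  set F1 : Option (Fin (k + 1) × β) → QS S := fun x =>
    match x with
    | none => t
    | some ab => G1 ab.1 ab.2 with hF1
  obtain ⟨C⟩ := QC.exists (QS.dg t 1 ⊔ B) (fun _ : Unit => B) F1 (fun _ => le_sup_right) (by
    rintro (_ | ⟨a, b⟩)
    · exact le_sup_left
    · exact h1 a b) k
  set s' : Fin (k + 1) → QS C.W := fun i => (C.p i).qs s with hs'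
  set t' : QS C.W := (C.p 0).qs t with ht'
  set B' : C.W.L := (C.p 0).map B with hB'
  set G1' : Fin (k + 1) → β → QS C.W := fun a b => (C.p 0).qs (G1 a b) with hG1'
  have ct : ∀ i, (C.p i).qs t = t' := fun i => C.com i 0 none
  have cB : ∀ i, (C.p i).map B = B' := fun i => C.comB i 0 ()
  have cG : ∀ i a b, (C.p i).qs (G1 a b) = G1' a b := fun i a b => C.com i 0 (some (a, b))
  obtain ⟨VI, hV1, hV2, hV3⟩ := C.vand s hs
  set V := Matrix.vandermonde s' with hV
  set e : Fin (k + 1) → Fin (k + 1) → β → QS C.W := fun a c b =>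
    ∑ i, VI a i * (C.p i).qs (G2 c b) with he
  -- (E1)
  have E1 : ∀ i c b, (C.p i).qs (G2 c b) = ∑ a, e a c b * s' i ^ (a : ℕ) := by
    intro i c b
    have := sum_swap V VI hV2 (fun j => (C.p j).qs (G2 c b)) i
    rw [← this]
    apply Finset.sum_congr rfl
    intro a _
    rw [hV, Matrix.vandermonde_apply, mul_comm]
  -- (E2)
  have E2 : ∀ a b, G1' a b = ∑ c, e a c b * t' ^ (c : ℕ) := by
    intro a b
    have e1 := sum_swap VI V hV1 (fun j => G1' j b) a
    have e2 : ∀ i, ∑ j, V i j * G1' j b = ∑ c, (C.p i).qs (G2 c b) * t' ^ (c : ℕ) := by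
      intro i
      have e3 : (C.p i).qs (g b) = ∑ j, V i j * G1' j b := by
        rw [hg1 b, map_sum]
        apply Finset.sum_congr rfl
        intro j _
        rw [map_mul, map_pow, cG, hV, Matrix.vandermonde_apply, mul_comm]
      rw [← e3, hg2 b, map_sum]
      apply Finset.sum_congr rfl
      intro j _
      rw [map_mul, map_pow, ct]
    simp only [e2] at e1
    rw [← e1, he]
    simp only [Finset.mul_sum, Finset.sum_mul]
    rw [Finset.sum_comm]
    apply Finset.sum_congr rfl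
    intro c _
    apply Finset.sum_congr rfl
    intro i _
    ring
  -- (E3)
  have E3 : ∀ a c b, QS.dg (e a c b) 1 ≤ QS.vd s' 1 ⊔ B' := by
    intro a c b
    have : e a c b ∈ QS.Kn C.W 1 le_rfl (QS.vd s' 1 ⊔ B') := by
      apply Subring.sum_mem
      intro i _
      apply Subring.mul_mem
      · exact (hV3 a i).trans le_sup_left
      · rw [QS.mem_Kn, Pj.qs_dg]
        refine ((C.p i).map_mono (h2 c b)).trans ?_
        rw [Pj.map_sup, cB, ← Pj.qs_dg]
        exact sup_le ((QS.dg_le_vd s' 1 i).trans le_sup_left) le_sup_right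
    exact this
  have htF2 : 1 ≤ h (QS.dg t' 1) (QS.vd s' 1 ⊔ B') := by
    have a1 : h (QS.vd s' 1) (QS.dg t' 1 ⊔ B') = ((k : ℝ) + 1) * h (QS.dg s 1) (QS.dg t 1 ⊔ B) := by
      rw [← C.h_vd s, Pj.map_sup, ← Pj.qs_dg]
    have a2 : h (QS.dg t' 1 ⊔ QS.vd s' 1) B' = h (QS.dg t' 1) B' +
      h (QS.vd s' 1) (QS.dg t' 1 ⊔ B') := h_chain _ _ _
    have a3 : h (QS.vd s' 1 ⊔ QS.dg t' 1) B' = h (QS.vd s' 1) B' +
      h (QS.dg t' 1) (QS.vd s' 1 ⊔ B') := h_chain _ _ _
    have a4 : h (QS.dg t' 1) B' = h (QS.dg t 1) B := by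
      rw [ht', Pj.qs_dg, Pj.h_map]
    have a5 : h (QS.vd s' 1) B' ≤ (k : ℝ) + 1 := by
      refine (h_le_H _ _).trans ((H_vd_le s').trans ?_)
      rw [Fintype.card_fin]
      push_cast
      exact le_rfl
    rw [sup_comm (QS.vd s' 1) (QS.dg t' 1)] at a3
    have a6 : ((k : ℝ) + 1) * 1 ≤ ((k : ℝ) + 1) * h (QS.dg s 1) (QS.dg t 1 ⊔ B) :=
      mul_le_mul_of_nonneg_left hs (by positivity)
    linarith
  -- second copies: common `s', e` and the base
  set F2 : Fin (k + 1) ⊕ (Fin (k + 1) × Fin (k + 1) × β) → QS C.W := fun x =>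
    match x with
    | Sum.inl i => s' i
    | Sum.inr acb => e acb.1 acb.2.1 acb.2.2 with hF2
  obtain ⟨C2⟩ := QC.exists (QS.vd s' 1 ⊔ B') (fun _ : Unit => B') F2 (fun _ => le_sup_right) (by
    rintro (i | ⟨a, c, b⟩)
    · exact (QS.dg_le_vd s' 1 i).trans le_sup_left
    · exact E3 a c b) k
  set t2 : Fin (k + 1) → QS C2.W := fun j => (C2.p j).qs t' with ht2
  set B2 : C2.W.L := (C2.p 0).map B' with hB2
  set s2 : Fin (k + 1) → QS C2.W := fun i => (C2.p 0).qs (s' i) with hs2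
  set e2 : Fin (k + 1) → Fin (k + 1) → β → QS C2.W := fun a c b => (C2.p 0).qs (e a c b) with he2
  have cB2 : ∀ j, (C2.p j).map B' = B2 := fun j => C2.comB j 0 ()
  have ce2 : ∀ j a c b, (C2.p j).qs (e a c b) = e2 a c b := fun j a c b => C2.com j 0 (Sum.inr (a, c, b))
  obtain ⟨WI, hW1, hW2, hW3⟩ := C2.vand t' htF2
  set W := Matrix.vandermonde t2 with hW
  -- (E4)
  have E4 : ∀ a c b, e2 a c b = ∑ j, WI c j * (C2.p j).qs (G1' a b) := by
    intro a c b
    have e1 := sum_swap WI W hW1 (fun c' => e2 a c' b) c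
    rw [← e1]
    apply Finset.sum_congr rfl
    intro j _
    congr 1
    rw [E2 a b, map_sum]
    apply Finset.sum_congr rfl
    intro c' _
    rw [map_mul, map_pow, ce2, hW, Matrix.vandermonde_apply, mul_comm]
  have E5 : ∀ a c b, QS.dg (e2 a c b) 1 ≤ QS.vd t2 1 ⊔ B2 := by
    intro a c b
    have : e2 a c b ∈ QS.Kn C2.W 1 le_rfl (QS.vd t2 1 ⊔ B2) := by
      rw [E4]
      apply Subring.sum_mem
      intro j _
      apply Subring.mul_mem
      · exact (hW3 c j).trans le_sup_left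
      · rw [QS.mem_Kn, Pj.qs_dg, hG1', Pj.qs_dg]
        refine ((C2.p j).map_mono ((C.p 0).map_mono (h1 a b))).trans ?_
        rw [Pj.map_sup, Pj.map_sup, cB, cB2, ← Pj.qs_dg, ← Pj.qs_dg]
        exact sup_le ((QS.dg_le_vd t2 1 j).trans le_sup_left) le_sup_right
    exact this
  have E6 : ∀ a c b, QS.dg (e2 a c b) 1 ≤ QS.vd s2 1 ⊔ B2 := by
    intro a c b
    rw [he2]
    simp only [Pj.qs_dg]
    refine ((C2.p 0).map_mono (E3 a c b)).trans ?_
    rw [Pj.map_sup, cB2, ← Pj.qs_vd]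
  have E7 : I (QS.vd t2 1) (QS.vd s2 1) B2 = 0 := by
    apply le_antisymm _ (I_nonneg _ _ _)
    rw [I_eq]
    have a1 : h (QS.vd t2 1) B2 ≤ (k : ℝ) + 1 := by
      refine (h_le_H _ _).trans ((H_vd_le t2).trans ?_)
      rw [Fintype.card_fin]
      push_cast
      exact le_rfl
    have a2 := C2.h_vd t'
    have a3 : (C2.p 0).map (QS.vd s' 1 ⊔ B') = QS.vd s2 1 ⊔ B2 := by
      rw [Pj.map_sup, cB2, ← Pj.qs_vd]
    rw [a3] at a2
    have a6 : ((k : ℝ) + 1) * 1 ≤ ((k : ℝ) + 1) * h (QS.dg t' 1) (QS.vd s' 1 ⊔ B') :=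
      mul_le_mul_of_nonneg_left htF2 (by positivity)
    have a7 : h (QS.vd t2 1) (QS.vd s2 1 ⊔ B2) = ((k : ℝ) + 1) * h (QS.dg t' 1) (QS.vd s' 1 ⊔ B') := a2
    linarith
  refine ⟨C2.W, (C2.p 0).comp (C.p 0), e2, fun a c b => ?_, fun c b => ?_, fun a b => ?_⟩
  · rw [Pj.comp_map]
    exact le_of_markov (E5 a c b) (E6 a c b) E7
  · rw [Pj.comp_qs, Pj.comp_qs, E1 0 c b, map_sum]
    apply Finset.sum_congr rfl
    intro a _
    rw [map_mul, map_pow]
  · rw [Pj.comp_qs, Pj.comp_qs]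
    have e1 := congrArg (C2.p 0).qs (E2 a b)
    rw [map_sum] at e1
    refine e1.trans ?_
    apply Finset.sum_congr rfl
    intro c _
    rw [map_mul, map_pow]

end

end Pool.Agent.Helper85.SEP
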